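import Pool.Agent.Helper47.ME.Goals

/-!
# Packet ME-WDM: segments in the boundary of the polar body
-/

open MeasureTheory Set Filter Topology
open scoped ENNReal
open Pool.Agent.Helper47.AQ
open Pool.Agent.Helper72.MK
open Pool.Agent.Helper47.ME

namespace Pool.Agent.Helper42.ME

theorem wd_add {ι : Type} [Fintype ι] {K : Set (ι → ℝ)} (h : IsBody K) (p q : ι → ℝ) :
    wd K (p + q) ≤ wd K p + wd K q := by
  unfold wd
  have h1 := h.hs_add p q
  have h2 := h.hs_add (-p) (-q)
  rw [show -(p + q) = -p + -q by abel]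
  linarith

theorem wdm (h1 : G1XStmt) (h2 : BODYStmt) : WDMStmt := by
  intro K hK hquart y hy hy0 hy1 heq c hc
  have hdp := hK.dpol_eq
  obtain ⟨hM, hsym⟩ := h2 (Fin 3) K hK
  have hwy : wd K y ≤ 1 := by
    have : y ∈ {p | wd K p ≤ 1} := by rw [← hdp]; exact hy
    exact this
  set e : Fin 3 → ℝ := Pi.single 2 c with he
  have he0 : e 0 = 0 := by simp [he]
  have he1 : e 1 = 0 := by simp [he]
  have hle : wd K (y + e) ≤ 2 := by
    have := wd_add hK y e
    linarith
  by_contra hne
  have hlt : wd K (y + e) < 2 := lt_of_le_of_ne hle hne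
  set w : ℝ := wd K (y + e) / 2 with hw
  have hw0 : 0 ≤ w := by have := hK.wd_nonneg (y + e); positivity
  have hw1 : w < 1 := by rw [hw]; linarith
  set η : ℝ := (1 - w) / 2 with hη
  have hη0 : 0 < η := by rw [hη]; linarith
  have hη1 : η < 1 := by rw [hη]; linarith
  set s : ℝ := (1 + η) / 2 with hs
  have hs0 : 0 < s := by positivity
  have hs1 : s < 1 := by rw [hs]; linarith
  have hs2 : 1 / 2 < s := by rw [hs]; linarith
  set p : Fin 3 → ℝ := s • (y + e) with hp
  have hwp : wd K p < 1 := by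
    rw [hp, hK.wd_smul s hs0]
    have : s * wd K (y + e) = (1 + η) * w := by rw [hs, hw]; ring
    rw [this]
    nlinarith
  let V : Fin 3 → Set (Fin 3 → ℝ) := fun i =>
    {x | 0 < y i → x i < y i ∧ y i - x i < wd K (y i • x - x i • y)}
  have hVo : ∀ i, IsOpen (V i) := by
    intro i
    by_cases hi : 0 < y i
    · have : V i = {x | x i < y i} ∩ {x | y i - x i < wd K (y i • x - x i • y)} := by
        ext x
        simp [V, hi]
      rw [this]
      have hci : Continuous fun x : Fin 3 → ℝ => x i := continuous_apply i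
      have hcg : Continuous fun x : Fin 3 → ℝ => y i • x - x i • y := by fun_prop
      exact (isOpen_lt hci continuous_const).inter
        (isOpen_lt (continuous_const.sub hci) (hK.wd_continuous.comp hcg))
    · have : V i = univ := by
        ext x
        simp [V, hi]
      rw [this]
      exact isOpen_univ
  have hpV : ∀ i, e i = 0 → p ∈ V i := by
    intro i hei hi
    have hpi : p i = s * y i := by simp [hp, hei]
    refine ⟨by rw [hpi]; nlinarith, ?_⟩
    have h3 : y i • p - p i • y = (y i * s) • e := by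
      rw [hpi, hp]
      ext j
      simp only [Pi.sub_apply, Pi.smul_apply, Pi.add_apply, smul_eq_mul]
      ring
    rw [h3, hK.wd_smul _ (mul_pos hi hs0), hc, hpi]
    nlinarith
  set U : Set (Fin 3 → ℝ) := {x | wd K x < 1} with hU
  have hUo : IsOpen U := isOpen_lt hK.wd_continuous continuous_const
  set W : Set (Fin 3 → ℝ) := U ∩ (V 0 ∩ V 1) with hW
  have hWo : IsOpen W := hUo.inter ((hVo 0).inter (hVo 1))
  have hpW : p ∈ W := ⟨hwp, hpV 0 he0, hpV 1 he1⟩
  set Q : Set (Fin 3 → ℝ) := {x | 0 < x 0 ∧ 0 < x 1} with hQ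
  have hQo : IsOpen Q := by
    have : Q = {x | 0 < x 0} ∩ {x | 0 < x 1} := by ext x; simp [hQ]
    rw [this]
    exact (isOpen_lt continuous_const (continuous_apply 0)).inter
      (isOpen_lt continuous_const (continuous_apply 1))
  have hNo : IsOpen (W ∩ Q) := hWo.inter hQo
  have hNne : (W ∩ Q).Nonempty := by
    have hcont : Continuous fun ε : ℝ => p + ε • (![1, 1, 0] : Fin 3 → ℝ) := by fun_prop
    have h4 : ∀ᶠ ε in 𝓝 (0 : ℝ), p + ε • (![1, 1, 0] : Fin 3 → ℝ) ∈ W := by
      refine hcont.continuousAt.eventually_mem ?_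
      refine hWo.mem_nhds ?_
      simpa using hpW
    obtain ⟨δ, hδ, h5⟩ := Metric.eventually_nhds_iff.1 h4
    have h6 : p + (δ / 2) • (![1, 1, 0] : Fin 3 → ℝ) ∈ W := by
      refine h5 ?_
      rw [Real.dist_eq, sub_zero, abs_of_pos (half_pos hδ)]
      exact half_lt_self hδ
    refine ⟨_, h6, ?_, ?_⟩
    · have : 0 ≤ p 0 := by simp only [hp, Pi.smul_apply, Pi.add_apply, he0, add_zero, smul_eq_mul]; positivity
      simp only [Pi.add_apply, Pi.smul_apply, Matrix.cons_val_zero, smul_eq_mul, mul_one]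
      linarith
    · have : 0 ≤ p 1 := by simp only [hp, Pi.smul_apply, Pi.add_apply, he1, add_zero, smul_eq_mul]; positivity
      simp only [Pi.add_apply, Pi.smul_apply, Matrix.cons_val_one, Matrix.cons_val_zero, smul_eq_mul, mul_one]
      linarith
  have hNsub : W ∩ Q ⊆ dpol K ∩ {x | 0 < x 0 ∧ 0 < x 1} := by
    rintro x ⟨⟨hx1, -⟩, hx2⟩
    refine ⟨?_, hx2⟩
    rw [hdp]
    exact (show wd K x < 1 from hx1).le
  have hNpos : 0 < (volume (W ∩ Q)).toReal := by
    refine ENNReal.toReal_pos (hNo.measure_pos volume hNne).ne' ?_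
    refine (lt_of_le_of_lt (measure_mono (hNsub.trans inter_subset_left)) ?_).ne
    exact hM.comp.measure_lt_top
  have hdis : ∀ i, ∀ x ∈ V i, 0 < y i → ∀ q ∈ dpol K, q i = 0 → ∀ t : ℝ, 0 < t → t < 1 →
      x ≠ (1 - t) • q + t • y := by
    intro i x hx hi q hq hqi t ht0 ht1 hxe
    obtain ⟨h7, h8⟩ := hx hi
    have hxi : x i = t * y i := by rw [hxe]; simp [hqi]
    have h9 : y i • x - x i • y = (y i * (1 - t)) • q := by
      rw [hxi, hxe]
      ext j
      simp only [Pi.sub_apply, Pi.smul_apply, Pi.add_apply, smul_eq_mul]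
      ring
    have hwq : wd K q ≤ 1 := by
      have : q ∈ {p | wd K p ≤ 1} := by rw [← hdp]; exact hq
      exact this
    have hpos : 0 < y i * (1 - t) := mul_pos hi (by linarith)
    rw [h9, hK.wd_smul _ hpos, hxi] at h8
    nlinarith
  have hG := h1 (dpol K) hM hsym y hy hy0 hy1 (W ∩ Q) hNo.measurableSet hNsub
    (fun h0 x hx q hq hq0 t ht0 ht1 => hdis 0 x hx.1.2.1 h0 q hq hq0 t ht0 ht1)
    (fun h0 x hx q hq hq0 t ht0 ht1 => hdis 1 x hx.1.2.2 h0 q hq hq0 t ht0 ht1)
  rw [hquart, heq] at hG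
  linarith

end Pool.Agent.Helper42.ME
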